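import Pool.Agent.U840.VF.Trans

/-!
# Projectors of curves with group actions
-/

set_option autoImplicit false

open CategoryTheory AlgebraicGeometry

universe u v w

namespace Pool.Agent.U840.VF

open Pool.Agent.H914 Pool.Agent.H914.VarClass Pool.Agent.H914.VarClass.Obj Pool.Agent.W492.BB
  Pool.Agent.W550.Corr Pool.Agent.TH133

variable {k : Type u} [Field k] {𝒱 : VarClass k} {F : Type} [Field F]

variable {C : TheoryData.{u, v, 0} 𝒱 F} [hC : IsChowF C] {X Y Z W V T S : 𝒱.Obj}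

include hC

lemma smul_comp1 (q : F) (Γ : C.A (X.prod Y)) (Δ : C.A (Y.prod Z)) :
    C.comp (q • Γ) Δ = q • C.comp Γ Δ := by
  rw [← compL_apply C Γ Δ, ← compL_apply C (q • Γ) Δ, map_smul (compL C), LinearMap.smul_apply]

lemma comp_smul1 (q : F) (Γ : C.A (X.prod Y)) (Δ : C.A (Y.prod Z)) :
    C.comp Γ (q • Δ) = q • C.comp Γ Δ := by
  rw [← compL_apply C Γ Δ, ← compL_apply C Γ (q • Δ), map_smul (compL C Γ)]

lemma comp_pull_fst (e : C.A X) (Δ : C.A (Y.prod Z)) (x : W ⟶ X) (z : W ⟶ Z) :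
    vl C (C.comp (C.pull (fst X Y) e) Δ) x z = C.pull x e * C.pull z (C.act Δ 1) := by
  rw [vl_comp, vl_fst, C.pull_comp, C.proj_left, pull_act, map_one, mul_one]

lemma comp_pull_snd (e : C.A Y) (Δ : C.A (Y.prod Z)) (x : W ⟶ X) (z : W ⟶ Z) :
    vl C (C.comp (C.pull (snd X Y) e) Δ) x z = C.pull z (C.act Δ e) := by
  rw [vl_comp, vl_snd, ch_comm C, pull_act]

lemma ext_vl {p q : C.A (X.prod Y)} (h : ∀ (W : 𝒱.Obj) (x : W ⟶ X) (y : W ⟶ Y),
    vl C p x y = vl C q x y) : p = q := by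
  have := h _ (fst X Y) (snd X Y)
  rwa [vl_univ, vl_univ] at this

lemma push_one_snd (h : 0 < X.dim) : C.push (snd X Y) (1 : C.A (X.prod Y)) = 0 := by
  have h1 := C.push_mem (snd X Y) (C.one_mem (X.prod Y))
  have h2 : (0 : ℤ) + 1 * ((Y.dim : ℤ) - ((X.prod Y).dim : ℤ)) < 0 := by
    rw [dim_prod]
    push_cast
    have : (0 : ℤ) < X.dim := by exact_mod_cast h
    linarith
  rw [C.gr_neg _ _ h2] at h1
  exact h1

lemma act_mid_one {e : C.A X} (hd : X.dim = 1) (he1 : HasDegreeOne C e) :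
    C.act (midProj C e) 1 = 0 := by
  have h1 : C.act (C.pull (fst X X) e) 1 = 1 := by
    rw [TheoryData.act_apply, map_one, mul_one, (he1 X).1]
  have h2 : C.act (C.pull (snd X X) e) 1 = 0 := by
    rw [TheoryData.act_apply, map_one, C.proj_left, push_one_snd (by omega), mul_zero]
  rw [midProj, C.act_sub, C.act_sub, act_dg, h1, h2, sub_self, sub_zero]

lemma act_mid_e {e : C.A X} (hd : X.dim = 1) (he : C.Deg 1 e) (he1 : HasDegreeOne C e) :
    C.act (midProj C e) e = 0 := by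
  have h0 : e * e = 0 := hC.gr_top _ (1 + 1) _ (C.mul_mem he he) (by rw [hd]; norm_num)
  have h1 : C.act (C.pull (fst X X) e) e = 0 := by
    rw [TheoryData.act_apply, ← map_mul, h0, map_zero, map_zero]
  have h2 : C.act (C.pull (snd X X) e) e = e := by
    rw [TheoryData.act_apply, C.proj_left, (he1 X).1, mul_one]
  rw [midProj, C.act_sub, C.act_sub, act_dg, h1, h2, sub_zero, sub_self]

lemma mid_idem {e : C.A X} (hd : X.dim = 1) (he : C.Deg 1 e) (he1 : HasDegreeOne C e) :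
    C.comp (midProj C e) (midProj C e) = midProj C e := by
  have h1 : C.comp (C.pull (fst X X) e) (midProj C e) = 0 := by
    apply ext_vl
    intro W x y
    rw [comp_pull_fst, act_mid_one hd he1, map_zero, mul_zero, vl, map_zero]
  have h2 : C.comp (C.pull (snd X X) e) (midProj C e) = 0 := by
    apply ext_vl
    intro W x y
    rw [comp_pull_snd, act_mid_e hd he he1, map_zero, vl, map_zero]
  conv_lhs => rw [midProj]
  rw [sub_comp, sub_comp]
  change C.comp (dg C X) (midProj C e) - C.comp (C.pull (fst X X) e) (midProj C e) -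
    C.comp (C.pull (snd X X) e) (midProj C e) = _
  rw [h1, h2, dg_comp, sub_zero, sub_zero]

lemma mid_symm (e : C.A X) : tp C (midProj C e) = midProj C e := by
  apply ext_vl
  intro W x y
  rw [vl_tp]
  have h1 : vl C (dg C X) y x = vl C (dg C X) x y := by
    rw [← vl_tp (dg C X)]
    congr 1
    have h2 : tp C (dg C X) = C.push (sw X X) (C.push (Obj.lift (𝟙 X) (𝟙 X)) 1) := by
      rw [tp, pull_iso C (sw X X) (sw X X) sw_sw sw_sw]
      rfl
    rw [h2, ← C.push_comp]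
    have h3 : Obj.lift (𝟙 X) (𝟙 X) ≫ sw X X = Obj.lift (𝟙 X) (𝟙 X) := by
      apply prod_ext <;> simp [sw]
    rw [h3]
    rfl
  rw [midProj, vl_sub, vl_sub, vl_sub, vl_sub, vl_fst, vl_snd, vl_fst, vl_snd, h1]
  ring

lemma mid_inv {e : C.A X} {g : X ⟶ X} (hg : g ≫ g = 𝟙 X) (he : C.pull g e = e) (x y : W ⟶ X) :
    vl C (midProj C e) (x ≫ g) (y ≫ g) = vl C (midProj C e) x y := by
  have h0 : prodMap g g ≫ prodMap g g = 𝟙 (X.prod X) := by
    apply prod_ext
    · rw [Category.assoc, prodMap_fst, ← Category.assoc, prodMap_fst, Category.assoc, hg]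
      simp
    · rw [Category.assoc, prodMap_snd, ← Category.assoc, prodMap_snd, Category.assoc, hg]
      simp
  have h1 : C.pull (prodMap g g) (dg C X) = dg C X := by
    rw [pull_iso C _ _ h0 h0]
    change C.push (prodMap g g) (C.push (Obj.lift (𝟙 X) (𝟙 X)) 1) = C.push (Obj.lift (𝟙 X) (𝟙 X)) 1
    have h2 : Obj.lift (𝟙 X) (𝟙 X) ≫ prodMap g g = g ≫ Obj.lift (𝟙 X) (𝟙 X) := by
      apply prod_ext <;> simp [comp_lift]
    have h3 : C.push g (1 : C.A X) = 1 := by
      rw [← pull_iso C g g hg hg, map_one]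
    rw [← C.push_comp, h2, C.push_comp, h3]
  rw [midProj, vl_sub, vl_sub, vl_sub, vl_sub, vl_fst, vl_snd, vl_fst, vl_snd, C.pull_comp,
    C.pull_comp, he, ← vl_pull, h1]

/-- The projector acts as the identity on classes with vanishing push-forward. -/
lemma mid_fix {e : C.A X} (hd : X.dim = 1) (hd' : Y.dim = 1) (he : C.Deg 1 e)
    {β : C.A (X.prod Y)} (hβ : C.Deg 2 β) (h0 : C.push (snd X Y) β = 0) :
    C.comp (midProj C e) β = β := by
  have h1 : C.comp (C.pull (fst X X) e) β = 0 := by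
    apply ext_vl
    intro W x y
    rw [comp_pull_fst, TheoryData.act_apply, map_one, mul_one, h0, map_zero, mul_zero, vl,
      map_zero]
  have h2 : C.comp (C.pull (snd X X) e) β = 0 := by
    apply ext_vl
    intro W x y
    have h3 : β * C.pull (fst X Y) e = 0 := by
      apply hC.gr_top _ (2 + 1) _ (C.mul_mem hβ (C.pull_mem _ he))
      rw [dim_prod, hd, hd']
      norm_num
    rw [comp_pull_snd, TheoryData.act_apply, h3, map_zero, map_zero, vl, map_zero]
  rw [midProj, sub_comp, sub_comp]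
  change C.comp (dg C X) β - C.comp (C.pull (fst X X) e) β - C.comp (C.pull (snd X X) e) β = _
  rw [h1, h2, dg_comp, sub_zero, sub_zero]


lemma mid_mem {e : C.A X} (hd : X.dim = 1) (hed : C.Deg 1 e) : midProj C e ∈ C.gr (X.prod X) X.dim := by
  rw [hd]
  have h1 : dg C X ∈ C.gr (X.prod X) X.dim := by
    have h2 := C.push_mem (Obj.lift (𝟙 X) (𝟙 X)) (C.one_mem X)
    have e1 : (0 : ℤ) + 1 * (((X.prod X).dim : ℤ) - (X.dim : ℤ)) = X.dim := by
      rw [dim_prod]; push_cast; ring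
    rw [e1] at h2
    exact h2
  rw [hd] at h1
  exact Submodule.sub_mem _ (Submodule.sub_mem _ h1 (C.pull_mem _ hed)) (C.pull_mem _ hed)


lemma symPower_eq' {D : Type} {n : ℕ} (p : D → D → C.A (X.prod X))
    (x y : Fin n → D × (W ⟶ X)) :
    symPower C p x y = ∑ σ : Equiv.Perm (Fin n), ∏ i, vm C p (x i) (y (σ i)) := by
  rw [symPower]
  refine Finset.sum_congr rfl fun σ _ => ?_
  rw [List.prod_ofFn]
  rfl

lemma graph_deg (f : X ⟶ Y) : C.Deg Y.dim (C.graph f) := by
  have h2 := C.push_mem (Obj.lift (𝟙 X) f) (C.one_mem X)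
  have e1 : (0 : ℤ) + 1 * (((X.prod Y).dim : ℤ) - (X.dim : ℤ)) = Y.dim := by
    rw [dim_prod]; push_cast; ring
  rw [e1] at h2
  exact h2

/-- The Albanese kernel is mapped to the Albanese kernel. -/
lemma albKer_act {b : C.A (X.prod Y)} (hb : C.Deg X.dim b) (hXY : X.dim = Y.dim) {α : C.A X}
    (hα : InAlbKer C α) : InAlbKer C (C.act b α) := by
  refine ⟨?_, fun Z W hW => ?_⟩
  · have h := C.push_mem (snd X Y) (C.mul_mem hb (C.pull_mem (fst X Y) hα.deg))
    have e1 : (X.dim : ℤ) + X.dim + 1 * ((Y.dim : ℤ) - ((X.prod Y).dim : ℤ)) = Y.dim := by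
      rw [dim_prod, hXY]; push_cast; ring
    rw [e1] at h
    exact h
  · rw [← C.act_comp]
    refine hα.act_eq_zero Z _ ?_
    have h := comp_mem C (e := 0) (e' := 1 - Y.dim) (Γ := b) (Δ := W) (by rwa [add_zero])
      (by rw [add_sub_cancel]; exact hW)
    have e1 : (X.dim : ℤ) + (0 + (1 - Y.dim)) = 1 := by rw [hXY]; ring
    rw [e1] at h
    exact h

/-- The action commutes with automorphisms which preserve the correspondence. -/
lemma act_tp_inv {b : C.A (X.prod S)} {g : X ⟶ X} (hg : C.pull (prodMap g (𝟙 S)) b = b)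
    (α : C.A S) : C.pull g (C.act (tp C b) α) = C.act (tp C b) α := by
  rw [pull_act]
  conv_rhs => rw [← C.pull_id (C.act (tp C b) α), pull_act]
  congr 2
  rw [vl_tp, vl_tp, Category.comp_id]
  conv_rhs => rw [← hg, vl_pull, Category.comp_id]


lemma mid_inv' {e : C.A X} {g g' : X ⟶ X} (hg : g ≫ g' = 𝟙 X) (hg' : g' ≫ g = 𝟙 X)
    (he : C.pull g e = e) (x y : W ⟶ X) :
    vl C (midProj C e) (x ≫ g) (y ≫ g) = vl C (midProj C e) x y := by
  have h0 : prodMap g g ≫ prodMap g' g' = 𝟙 (X.prod X) := by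
    apply prod_ext
    · rw [Category.assoc, prodMap_fst, ← Category.assoc, prodMap_fst, Category.assoc, hg]
      simp
    · rw [Category.assoc, prodMap_snd, ← Category.assoc, prodMap_snd, Category.assoc, hg]
      simp
  have h0' : prodMap g' g' ≫ prodMap g g = 𝟙 (X.prod X) := by
    apply prod_ext
    · rw [Category.assoc, prodMap_fst, ← Category.assoc, prodMap_fst, Category.assoc, hg']
      simp
    · rw [Category.assoc, prodMap_snd, ← Category.assoc, prodMap_snd, Category.assoc, hg']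
      simp
  have h1 : C.pull (prodMap g g) (dg C X) = dg C X := by
    rw [pull_iso C _ _ h0 h0']
    change C.push (prodMap g' g') (C.push (Obj.lift (𝟙 X) (𝟙 X)) 1) =
      C.push (Obj.lift (𝟙 X) (𝟙 X)) 1
    have h2 : Obj.lift (𝟙 X) (𝟙 X) ≫ prodMap g' g' = g' ≫ Obj.lift (𝟙 X) (𝟙 X) := by
      apply prod_ext <;> simp [comp_lift]
    have h3 : C.push g' (1 : C.A X) = 1 := by
      rw [← pull_iso C g g' hg hg', map_one]
    rw [← C.push_comp, h2, C.push_comp, h3]
  rw [midProj, vl_sub, vl_sub, vl_sub, vl_sub, vl_fst, vl_snd, vl_fst, vl_snd, C.pull_comp,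
    C.pull_comp, he, ← vl_pull, h1]

section group

variable {G : Type} [Group G] [Fintype G] {a : G → (X ⟶ X)} {e : C.A X}

omit hC [Fintype G] in
lemma act_inv (h0 : a 1 = 𝟙 X) (h1 : ∀ g h, a (g * h) = a h ≫ a g) (g : G) :
    a g ≫ a g⁻¹ = 𝟙 X := by rw [← h1, inv_mul_cancel, h0]

omit hC [Fintype G] in
lemma inv_act (h0 : a 1 = 𝟙 X) (h1 : ∀ g h, a (g * h) = a h ≫ a g) (g : G) :
    a g⁻¹ ≫ a g = 𝟙 X := by rw [← h1, mul_inv_cancel, h0]

/-- The correspondences attached to the elements of the group. -/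
noncomputable def gP (a : G → (X ⟶ X)) (e : C.A X) (g : G) : C.A (X.prod X) :=
  C.pull (prodMap (𝟙 X) (a g)) (midProj C e)

omit [Group G] [Fintype G] in
lemma vl_gP (g : G) (x y : W ⟶ X) :
    vl C (gP a e g) x y = vl C (midProj C e) x (y ≫ a g) := by
  rw [gP, vl_pull, Category.comp_id]

omit [Fintype G] in
lemma vl_gP' (h0 : a 1 = 𝟙 X) (h1 : ∀ g h, a (g * h) = a h ≫ a g)
    (he : ∀ g, C.pull (a g) e = e) (g : G) (x y : W ⟶ X) :
    vl C (gP a e g) x y = vl C (midProj C e) (x ≫ a g⁻¹) y := by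
  have h2 := mid_inv' (inv_act h0 h1 g) (act_inv h0 h1 g) (he g⁻¹) x (y ≫ a g)
  rw [vl_gP, ← h2, Category.assoc, act_inv h0 h1 g, Category.comp_id]

omit [Fintype G] in
lemma gP_comp (hd : X.dim = 1) (hed : C.Deg 1 e) (he1 : HasDegreeOne C e) (h0 : a 1 = 𝟙 X)
    (h1 : ∀ g h, a (g * h) = a h ≫ a g) (he : ∀ g, C.pull (a g) e = e) (g h : G) :
    C.comp (gP a e g) (gP a e h) = gP a e (g * h) := by
  apply ext_vl
  intro W x y
  rw [vl_comp, vl_gP' h0 h1 he, vl_gP, Category.assoc, Category.assoc, ← vl_comp,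
    mid_idem hd hed he1, ← vl_gP' h0 h1 he, vl_gP, vl_gP, Category.assoc, ← h1]

omit [Fintype G] in
lemma gP_symm (h0 : a 1 = 𝟙 X) (h1 : ∀ g h, a (g * h) = a h ≫ a g)
    (he : ∀ g, C.pull (a g) e = e) (g : G) : tp C (gP a e g) = gP a e g⁻¹ := by
  apply ext_vl
  intro W x y
  rw [vl_tp, vl_gP, vl_symm (mid_symm e), vl_gP' h0 h1 he, inv_inv]

omit [Fintype G] in
lemma gP_one (h0 : a 1 = 𝟙 X) : gP a e 1 = midProj C e := by
  have h2 : prodMap (𝟙 X) (𝟙 X) = 𝟙 (X.prod X) := by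
    apply prod_ext <;> simp
  rw [gP, h0, h2, C.pull_id]

end group

section both

variable {G : Type} [Group G] [Fintype G] {a : G → (X ⟶ X)} {e : C.A X} {a' : G → (Y ⟶ Y)}
  {e' : C.A Y}

omit [Fintype G] in
/-- The equality of the actions from both sides on invariant classes. -/
lemma gP_both (h0 : a 1 = 𝟙 X) (h1 : ∀ g h, a (g * h) = a h ≫ a g)
    (he : ∀ g, C.pull (a g) e = e)
    {β : C.A (X.prod Y)} (hfix : C.comp (midProj C e) β = β)
    (hfix' : C.comp β (midProj C e') = β)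
    (hinv : ∀ g, C.pull (prodMap (a g) (a' g)) β = β) (g : G) :
    C.comp (gP a e g) β = C.comp β (gP a' e' g) := by
  apply ext_vl
  intro W x y
  rw [vl_comp, vl_comp]
  have h3 : vl C (gP a e g) (fst W X ≫ x) (snd W X) =
      vl C (midProj C e) (fst W X ≫ x ≫ a g⁻¹) (snd W X) := by
    rw [vl_gP' h0 h1 he, Category.assoc]
  have h4 : vl C (gP a' e' g) (snd W Y) (fst W Y ≫ y) =
      vl C (midProj C e') (snd W Y) (fst W Y ≫ y ≫ a' g) := by
    rw [vl_gP, Category.assoc]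
  rw [h3, h4, ← vl_comp, ← vl_comp, hfix, hfix']
  conv_lhs => rw [← hinv g, vl_pull, Category.assoc, inv_act h0 h1, Category.comp_id]

end both

/-- **The theorem in terms of motives.** Zero-cycles on `S` which are combinations of images of
zero-cycles on the products of symmetric odd motives. -/
theorem det_motives [CharZero F] {Φ : Type} [Fintype Φ] [DecidableEq Φ] {X Y : Φ → 𝒱.Obj}
    {D E : Φ → Type} [∀ φ, Fintype (D φ)] [∀ φ, Fintype (E φ)] {γ γ' : Φ → ℕ}
    {n : ℕ} (hn : ∑ φ, γ φ * γ' φ < n) {p : ∀ φ, D φ → D φ → C.A ((X φ).prod (X φ))}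
    (hp : ∀ φ, OddSym (p φ) (γ φ)) {q : ∀ φ, E φ → E φ → C.A ((Y φ).prod (Y φ))}
    (hq : ∀ φ, OddSym (q φ) (γ' φ)) (b : ∀ φ, D φ × E φ → C.A (((X φ).prod (Y φ)).prod S))
    (α : Fin n → C.A S) (β : ∀ φ, Fin n → D φ → E φ → C.A ((X φ).prod (Y φ)))
    (hβ : ∀ φ j d e, β φ j d e ∈ C.gr ((X φ).prod (Y φ)) (((X φ).dim : ℤ) + (Y φ).dim))
    (hfix : ∀ φ j d e, ∑ k, C.comp (p φ d k) (β φ j k e) = β φ j d e)
    (hfix' : ∀ φ j d e, ∑ k, C.comp (β φ j d k) (q φ k e) = β φ j d e)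
    (hα : ∀ j, α j = ∑ φ, ∑ c : D φ × E φ, C.act (b φ c) (β φ j c.1 c.2))
    (s : Fin n → (W ⟶ S)) :
    (Matrix.of fun i j => C.pull (s i) (α j)).det = 0 := by
  classical
  have h1 : (Matrix.of fun i j => C.pull (s i) (α j)) = Matrix.of fun i j =>
      ∑ φ, (Matrix.of fun i j => C.pull (s i) (∑ c : D φ × E φ, C.act (b φ c) (β φ j c.1 c.2)) :
        Matrix (Fin n) (Fin n) (C.A W)) i j := by
    funext i j
    simp only [Matrix.of_apply]
    rw [hα, map_sum]
  rw [h1]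
  letI : Algebra ℚ (C.A W) := ((algebraMap F (C.A W)).comp (algebraMap ℚ F)).toAlgebra
  refine Pool.Agent.R904.Voi.det_of_types (fun φ => γ φ * γ' φ) hn (fun φ => Matrix.of fun i j =>
    C.pull (s i) (∑ c : D φ × E φ, C.act (b φ c) (β φ j c.1 c.2))) fun φ J hJ r => ?_
  let e : J ≃ Fin J.card := J.equivFin
  rw [← Matrix.det_reindex_self e]
  refine det_trans (b φ) (fun (j : Fin J.card) c => β φ (e.symm j) c.1 c.2) (fun V t => ?_)
    (fun i => s (r (e.symm i)))
  have h3 := det_zero (W := V) hJ (hp φ) (hq φ) (α := fun j : Fin J.card => β φ (e.symm j))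
    (fun j => hβ φ _) (fun j => hfix φ _) (fun j => hfix' φ _)
    (fun i => ((t i).1.1, (t i).2 ≫ fst (X φ) (Y φ)))
    (fun i => ((t i).1.2, (t i).2 ≫ snd (X φ) (Y φ)))
  rw [← h3]
  congr 1
  funext i j
  have h2 : Obj.lift ((t i).2 ≫ fst (X φ) (Y φ)) ((t i).2 ≫ snd (X φ) (Y φ)) = (t i).2 := by
    apply prod_ext <;> simp
  rw [Matrix.of_apply, Matrix.of_apply, vm, vl, h2]

end Pool.Agent.U840.VF
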