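import Pool.Agent.TH133.Defs
import Mathlib.GroupTheory.Perm.Sign
import Mathlib.LinearAlgebra.Matrix.Trace

/-!
# Chow groups with coefficients in a field, curves with group actions: definitions
-/

set_option autoImplicit false

open CategoryTheory AlgebraicGeometry

universe u v w

namespace Pool.Agent.U840.VF

open Pool.Agent.H914 Pool.Agent.H914.VarClass Pool.Agent.H914.VarClass.Obj Pool.Agent.W492.BB
  Pool.Agent.W550.Corr Pool.Agent.TH133

variable {k : Type u} [Field k] {𝒱 : VarClass k}

/-- The formal properties of the Chow groups `CH^i(X) ⊗ F` with coefficients in the field `F` of the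
smooth projective (geometrically irreducible) varieties of the class `𝒱` which are used here:
graded rings with pull-backs and push-forwards, functoriality, projection formula, base change
(`IsTheory C 1`); push-forwards along isomorphisms preserve the fundamental classes (`HasIso`);
commutativity; `CH^i(X) = 0` for `i > dim X`. -/
class IsChowF {F : Type} [Field F] (C : TheoryData.{u, v, 0} 𝒱 F) : Prop where
  isTheory : IsTheory C 1
  hasIso : HasIso C
  mul_comm : ∀ {X : 𝒱.Obj} (a b : C.A X), C.mul a b = C.mul b a
  gr_top : ∀ (X : 𝒱.Obj) (i : ℤ) (x : C.A X), C.Deg i x → (X.dim : ℤ) < i → x = 0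

variable {F : Type} [Field F]

/-- The zero-cycle `x` on `X` has degree one: for all `Y` the push-forward of `x × Y` to `Y` is the
fundamental class of `Y`. -/
def HasDegreeOne (C : TheoryData.{u, v, 0} 𝒱 F) {X : 𝒱.Obj} (x : C.A X) : Prop :=
  ∀ Y : 𝒱.Obj, C.push (snd X Y) (C.pull (fst X Y) x) = 1 ∧
      C.push (fst Y X) (C.pull (snd Y X) x) = 1

/-- The zero-cycle `α` on `S` lies in the Albanese kernel: it is mapped to zero by all
correspondences `Z ∈ CH^1(S × Y)`, `Y` any variety (these map zero-cycles on `S` to divisor classes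
on `Y`). -/
structure InAlbKer (C : TheoryData.{u, v, 0} 𝒱 F) {S : 𝒱.Obj} (α : C.A S) : Prop where
  deg : C.Deg S.dim α
  act_eq_zero : ∀ (Y : 𝒱.Obj) (Z : C.A (S.prod Y)), C.Deg 1 Z → C.act Z α = 0

/-- For a zero-cycle class `e` on `X`: the correspondence `[Δ] - e × X - X × e`. If `X` is a curve
and `e` has degree one this is the projector defining the motive `h^1(X)`. -/
noncomputable def midProj (C : TheoryData.{u, v, 0} 𝒱 F) {X : 𝒱.Obj} (e : C.A X) :
    C.A (X.prod X) := dg C X - C.up (fst X X) e - C.up (snd X X) e

/-- For an action of the finite group `G` on the curve `X` by the automorphisms `a g`, and a matrix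
representation `ρ` of `G`: the matrix of correspondences `|G|⁻¹ ∑_g ρ(g)_(ij) (id × a g)^* π` with
`π = [Δ] - e × X - X × e`. It is the projector of the motive `(ρ ⊗ h^1(X))^G`, a summand of the sum
of the copies of `h^1(X)` indexed by `D`. -/
noncomputable def repProj (C : TheoryData.{u, v, 0} 𝒱 F) {X : 𝒱.Obj} {G : Type} [Fintype G]
    {D : Type} (ρ : G → Matrix D D F) (a : G → (X ⟶ X)) (e : C.A X) (i j : D) : C.A (X.prod X) :=
  ∑ g : G, ((Fintype.card G : F)⁻¹ * ρ g i j) • C.up (prodMap (𝟙 X) (a g)) (midProj C e)

/-- For a matrix `p` of correspondences on `X` and points `x i`, `y i` of `X` with values in `W`, each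
together with an index in `D`: the class `∑_σ p(x_1, y_(σ 1)) ⋯ p(x_n, y_(σ n))` on `W`, where
`p(x, y)` is the pull-back of the entry of `p` given by the indices of `x` and `y` along
`(x, y) : W ⟶ X × X`. For `W = X^n × X^n` and the `2n` projections these are `n!` times the components
of the projector of the symmetric power `Sym^n` of the motive defined by `p` on the sum of the
copies of `X` indexed by `D`. -/
noncomputable def symPower (C : TheoryData.{u, v, 0} 𝒱 F) {X W : 𝒱.Obj} {D : Type} {n : ℕ}
    (p : D → D → C.A (X.prod X)) (x y : Fin n → D × (W ⟶ X)) : C.A W :=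
  ∑ σ : Equiv.Perm (Fin n),
    (List.ofFn fun i => C.up (Obj.lift (x i).2 (y (σ i)).2) (p (x i).1 (y (σ i)).1)).prod

/-- The `ρ l`, `l ∈ L`, are orthogonal matrix representations of the finite group `G` and their sum,
each taken as often as its dimension, has the character of the regular representation: the
character takes the value `|G|` at `1` and `0` elsewhere. So the `ρ l` are the irreducible
representations of `G`, each is absolutely irreducible, and each is orthogonal. -/
structure IsOrthogonalSystem {G : Type} [Group G] [Fintype G] {L : Type} [Fintype L] {D : L → Type}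
    [∀ l, Fintype (D l)] [∀ l, DecidableEq (D l)] (ρ : ∀ l, G → Matrix (D l) (D l) F) : Prop where
  map_one : ∀ l, ρ l 1 = 1
  map_mul : ∀ l g h, ρ l (g * h) = ρ l g * ρ l h
  orthogonal : ∀ l g, ρ l g⁻¹ = (ρ l g).transpose
  regular_one : ∑ l, (Fintype.card (D l) : F) * (ρ l 1).trace = Fintype.card G
  regular_ne : ∀ g, g ≠ 1 → ∑ l, (Fintype.card (D l) : F) * (ρ l g).trace = 0

/-- `X` is a curve on which the finite group `G` acts by the automorphisms `a g`, and for the
matrix representations `ρ l` of `G` the rank of `(ρ l ⊗ h^1(X))^G` is `2 γ l`, in the sense of Kimura: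
the symmetric power `Sym^(2 γ l + 1)` of this motive is zero. (By the theorem of Kimura all curves
have this property with `2 γ l = dim (ρ l ⊗ H^1(X))^G`; this is even if `ρ l` is orthogonal.) Here
`e` is an invariant class of degree one. -/
structure IsCurveWithRanks (C : TheoryData.{u, v, 0} 𝒱 F) {G : Type} [Group G] [Fintype G]
    {L : Type} {D : L → Type} (ρ : ∀ l, G → Matrix (D l) (D l) F) (X : 𝒱.Obj) (a : G → (X ⟶ X))
    (γ : L → ℕ) : Prop where
  dim_eq : X.dim = 1
  act_one : a 1 = 𝟙 X
  act_mul : ∀ g h, a (g * h) = a h ≫ a g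
  kimura : ∃ e : C.A X, C.Deg 1 e ∧ HasDegreeOne C e ∧ (∀ g, C.up (a g) e = e) ∧
    ∀ (l : L) (W : 𝒱.Obj) (x y : Fin (2 * γ l + 1) → D l × (W ⟶ X)),
      symPower C (repProj C (ρ l) a e) x y = 0

/-- The surface `S` is dominated by the quotients `(X i × Y i) / G i` by the diagonal actions of
the groups `G i`, `i` in a finite set: there are correspondences `c i ∈ CH^2((X i × Y i) × S)` which
are invariant under the action of `G i` on `X i × Y i`, and numbers `r i`, such that
`∑ i, r i • (c i)_* (ᵗc i)_*` is the identity on the Albanese kernel of `S`. For one index, for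
example: `c` is the graph of a rational map of degree `N` from `X × Y` to `S` which factors through
`(X × Y) / G`, and `r = 1 / N`. -/
def IsDominatedByQuotients (C : TheoryData.{u, v, 0} 𝒱 F) {I : Type} [Fintype I] {G : I → Type}
    {X Y : I → 𝒱.Obj} (a : ∀ i, G i → (X i ⟶ X i)) (b : ∀ i, G i → (Y i ⟶ Y i))
    (S : 𝒱.Obj) : Prop :=
  S.dim = 2 ∧ ∃ (c : ∀ i, C.A (((X i).prod (Y i)).prod S)) (r : I → F), (∀ i, C.Deg 2 (c i)) ∧
    (∀ i g, C.up (prodMap (prodMap (a i g) (b i g)) (𝟙 S)) (c i) = c i) ∧
    ∀ α : C.A S, InAlbKer C α → ∑ i, r i • C.act (c i) (C.act (tp C (c i)) α) = α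

end Pool.Agent.U840.VF
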