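import Pool.Agent.U840.VF.Base

/-!
# Values of correspondences at points, integration over powers
-/

open CategoryTheory AlgebraicGeometry

universe u v w

namespace Pool.Agent.U840.VF

open Pool.Agent.H914 Pool.Agent.H914.VarClass Pool.Agent.H914.VarClass.Obj Pool.Agent.W492.BB
  Pool.Agent.W550.Corr Pool.Agent.TH133

variable {k : Type u} [Field k] {𝒱 : VarClass k} {F : Type} [Field F]

variable {C : TheoryData.{u, v, 0} 𝒱 F} [hC : IsChowF C] {X Y Z W V T : 𝒱.Obj}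

/-- The value of the class `p` on `X × Y` at the points `x`, `y`. -/
noncomputable def vl (C : TheoryData.{u, v, 0} 𝒱 F) {X Y W : 𝒱.Obj} (p : C.A (X.prod Y))
    (x : W ⟶ X) (y : W ⟶ Y) : C.A W := C.pull (Obj.lift x y) p

include hC

lemma pull_vl (g : V ⟶ W) (p : C.A (X.prod Y)) (x : W ⟶ X) (y : W ⟶ Y) :
    C.pull g (vl C p x y) = vl C p (g ≫ x) (g ≫ y) := by
  rw [vl, vl, ← C.pull_comp, comp_lift]

lemma vl_univ (p : C.A (X.prod Y)) : vl C p (fst X Y) (snd X Y) = p := by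
  rw [vl, lift_eta, C.pull_id]

lemma vl_mem {p : C.A (X.prod Y)} {i : ℤ} (hp : p ∈ C.gr (X.prod Y) i) (x : W ⟶ X) (y : W ⟶ Y) :
    vl C p x y ∈ C.gr W i := C.pull_mem _ hp

lemma vl_add (p q : C.A (X.prod Y)) (x : W ⟶ X) (y : W ⟶ Y) :
    vl C (p + q) x y = vl C p x y + vl C q x y := map_add _ _ _

lemma vl_sub (p q : C.A (X.prod Y)) (x : W ⟶ X) (y : W ⟶ Y) :
    vl C (p - q) x y = vl C p x y - vl C q x y := map_sub _ _ _

lemma vl_smul (r : F) (p : C.A (X.prod Y)) (x : W ⟶ X) (y : W ⟶ Y) :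
    vl C (r • p) x y = r • vl C p x y := map_smul _ _ _

lemma vl_sum {ι : Type*} (s : Finset ι) (p : ι → C.A (X.prod Y)) (x : W ⟶ X) (y : W ⟶ Y) :
    vl C (∑ i ∈ s, p i) x y = ∑ i ∈ s, vl C (p i) x y := map_sum _ _ _

lemma vl_pull (f : X ⟶ Z) (g : Y ⟶ T) (p : C.A (Z.prod T)) (x : W ⟶ X) (y : W ⟶ Y) :
    vl C (C.pull (prodMap f g) p) x y = vl C p (x ≫ f) (y ≫ g) := by
  rw [vl, vl, ← C.pull_comp]
  congr 1
  congr 1
  apply prod_ext <;> simp

lemma vl_fst (a : C.A X) (x : W ⟶ X) (y : W ⟶ Y) :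
    vl C (C.pull (fst X Y) a) x y = C.pull x a := by
  rw [vl, ← C.pull_comp, lift_fst]

lemma vl_snd (a : C.A Y) (x : W ⟶ X) (y : W ⟶ Y) :
    vl C (C.pull (snd X Y) a) x y = C.pull y a := by
  rw [vl, ← C.pull_comp, lift_snd]

lemma vl_tp (p : C.A (X.prod Y)) (x : W ⟶ X) (y : W ⟶ Y) :
    vl C (tp C p) y x = vl C p x y := by
  rw [vl, vl, tp, ← C.pull_comp]
  congr 1
  congr 1
  apply prod_ext <;> simp [sw]

/-- The exchange of the last two factors. -/
noncomputable def rh (X Y Z : 𝒱.Obj) : (X.prod Y).prod Z ⟶ (X.prod Z).prod Y :=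
  Obj.lift (Obj.lift (fst (X.prod Y) Z ≫ fst X Y) (snd (X.prod Y) Z)) (fst (X.prod Y) Z ≫ snd X Y)

omit hC in
lemma rh_rh (X Y Z : 𝒱.Obj) : rh X Y Z ≫ rh X Z Y = 𝟙 _ := by
  apply prod_ext
  · apply prod_ext <;> simp [rh, comp_lift]
  · simp [rh, comp_lift]

/-- The value of a composition. -/
lemma vl_comp (a : C.A (X.prod Y)) (b : C.A (Y.prod Z)) (x : W ⟶ X) (z : W ⟶ Z) :
    vl C (C.comp a b) x z = C.push (fst W Y) (vl C a (fst W Y ≫ x) (snd W Y) *
      vl C b (snd W Y) (fst W Y ≫ z)) := by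
  have e1 : t13 X Y Z = rh X Y Z ≫ fst (X.prod Z) Y := by
    apply prod_ext <;> simp [rh, t13, comp_lift]
  have e2 : (prodMap (Obj.lift x z) (𝟙 Y) ≫ rh X Z Y) ≫ t23 X Y Z =
      Obj.lift (snd W Y) (fst W Y ≫ z) := by
    apply prod_ext <;> simp [rh, t23, comp_lift]
  have e3 : (prodMap (Obj.lift x z) (𝟙 Y) ≫ rh X Z Y) ≫ fst (X.prod Y) Z =
      Obj.lift (fst W Y ≫ x) (snd W Y) := by
    apply prod_ext <;> simp [rh, comp_lift]
  rw [vl, TheoryData.comp, e1, C.push_comp, ← pull_iso C (rh X Z Y) (rh X Y Z) (rh_rh X Z Y)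
    (rh_rh X Y Z), base_pull, ← C.pull_comp, map_mul, ← C.pull_comp, ← C.pull_comp, e2, e3,
    ch_comm C]
  rfl

/-- The value of the image of a class. -/
lemma pull_act (b : C.A (X.prod Y)) (a : C.A X) (y : W ⟶ Y) :
    C.pull y (C.act b a) = C.push (fst W X) (vl C b (snd W X) (fst W X ≫ y) *
      C.pull (snd W X) a) := by
  have e1 : snd X Y = sw X Y ≫ fst Y X := by simp [sw]
  have e2 : (prodMap y (𝟙 X) ≫ sw Y X) = Obj.lift (snd W X) (fst W X ≫ y) := by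
    apply prod_ext <;> simp [sw]
  have e3 : (prodMap y (𝟙 X) ≫ sw Y X) ≫ fst X Y = snd W X := by
    simp [sw]
  have h0 : C.act b a = C.push (snd X Y) (b * C.pull (fst X Y) a) := by
    rw [TheoryData.act_apply]
  rw [h0, e1, C.push_comp, ← pull_iso C (sw Y X) (sw X Y) sw_sw sw_sw, base_pull, ← C.pull_comp,
    map_mul, ← C.pull_comp, e3, e2]
  rfl

variable (C) in
/-- Fubini: integration of a product over `T^n`. -/
lemma exists_fub (W T : 𝒱.Obj) (n : ℕ) :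
    ∃ (P : 𝒱.Obj) (f : P ⟶ W) (t : Fin n → (P ⟶ T)), ∀ h : Fin n → C.A (W.prod T),
      C.push f (∏ i, vl C (h i) f (t i)) = ∏ i, C.push (fst W T) (h i) := by
  induction n with
  | zero =>
    refine ⟨W, 𝟙 W, fun i => i.elim0, fun h => ?_⟩
    simp [C.push_id]
  | succ n ih =>
    obtain ⟨P, f, t, hP⟩ := ih
    refine ⟨P.prod T, fst P T ≫ f, Fin.cons (snd P T) (fun i => fst P T ≫ t i), fun h => ?_⟩
    rw [Fin.prod_univ_succ, Fin.prod_univ_succ, Fin.cons_zero, C.push_comp]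
    have h1 : ∏ i : Fin n, vl C (h i.succ) (fst P T ≫ f)
        ((Fin.cons (snd P T) (fun i => fst P T ≫ t i) : Fin (n + 1) → (P.prod T ⟶ T)) i.succ) =
        C.pull (fst P T) (∏ i : Fin n, vl C (h i.succ) f (t i)) := by
      rw [map_prod]
      refine Finset.prod_congr rfl fun i _ => ?_
      rw [Fin.cons_succ, pull_vl]
    have h2 : vl C (h 0) (fst P T ≫ f) (snd P T) = C.pull (prodMap f (𝟙 T)) (h 0) := by
      have e : Obj.lift (fst P T ≫ f) (snd P T) = prodMap f (𝟙 T) := by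
        apply prod_ext <;> simp
      rw [vl, e]
    rw [h1, C.proj_right, h2, ← base_pull, C.proj_left, hP]

omit hC in
/-- The product of sums over an index set. -/
lemma prod_sum_fun {R : Type*} [CommSemiring R] {n : ℕ} {K : Type*} [Fintype K] (f : Fin n → K → R) :
    ∏ i, ∑ c, f i c = ∑ c : Fin n → K, ∏ i, f i (c i) := by
  classical
  rw [Finset.prod_univ_sum, Fintype.piFinset_univ]

/-- The value of a matrix of classes at points with indices. -/
noncomputable def vm (C : TheoryData.{u, v, 0} 𝒱 F) {D E : Type} {X Y W : 𝒱.Obj}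
    (p : D → E → C.A (X.prod Y)) (x : D × (W ⟶ X)) (y : E × (W ⟶ Y)) : C.A W :=
  vl C (p x.1 y.1) x.2 y.2

/-- Composition of a point with a morphism. -/
def pc {D : Type} (g : V ⟶ W) (x : D × (W ⟶ X)) : D × (V ⟶ X) := (x.1, g ≫ x.2)

lemma pull_vm {D E : Type} (g : V ⟶ W) (p : D → E → C.A (X.prod Y)) (x : D × (W ⟶ X))
    (y : E × (W ⟶ Y)) : C.pull g (vm C p x y) = vm C p (pc g x) (pc g y) := by
  rw [vm, pull_vl]
  rfl

end Pool.Agent.U840.VF
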