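import Pool.Agent.U840.VF.Fub

/-!
# From permanents to matchings
-/

open CategoryTheory AlgebraicGeometry

universe u v w

namespace Pool.Agent.U840.VF

open Pool.Agent.H914 Pool.Agent.H914.VarClass Pool.Agent.H914.VarClass.Obj Pool.Agent.W492.BB
  Pool.Agent.W550.Corr Pool.Agent.TH133

variable {k : Type u} [Field k] {𝒱 : VarClass k} {F : Type} [Field F]

variable {C : TheoryData.{u, v, 0} 𝒱 F} [hC : IsChowF C] {X Y Z W V T : 𝒱.Obj} {D : Type}

/-- The permanents of the matrices `p (x i, y j)` are zero. -/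
def PermZero (C : TheoryData.{u, v, 0} 𝒱 F) [IsChowF C] {X : 𝒱.Obj} {D : Type}
    (p : D → D → C.A (X.prod X)) (ι : Type) [Fintype ι] [DecidableEq ι] : Prop :=
  ∀ (W : 𝒱.Obj) (x y : ι → D × (W ⟶ X)), ∑ σ : Equiv.Perm ι, ∏ i, vm C p (x i) (y (σ i)) = 0

include hC

lemma vl_symm {p : C.A (X.prod X)} (hs : tp C p = p) (x y : W ⟶ X) :
    vl C p x y = vl C p y x := by
  rw [← vl_tp, hs]

lemma vm_symm {p : D → D → C.A (X.prod X)} (hs : ∀ i j, tp C (p i j) = p j i)
    (x y : D × (W ⟶ X)) : vm C p x y = vm C p y x := by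
  rw [vm, vm, ← vl_tp, hs]

lemma PermZero.equiv {ι κ : Type} [Fintype ι] [DecidableEq ι] [Fintype κ] [DecidableEq κ]
    {p : D → D → C.A (X.prod X)} (h : PermZero C p ι) (e : ι ≃ κ) : PermZero C p κ := by
  intro W x y
  have h1 := h W (fun i => x (e i)) (fun i => y (e i))
  refine Eq.trans ?_ h1
  refine (Fintype.sum_equiv (Equiv.permCongr e) _ _ fun σ => ?_).symm
  refine Fintype.prod_equiv e _ _ fun i => ?_
  simp [Equiv.permCongr_apply]

lemma PermZero.succ {n : ℕ} {p : D → D → C.A (X.prod X)} (h : PermZero C p (Fin n)) :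
    PermZero C p (Fin (n + 1)) := by
  intro W x y
  rw [← Equiv.sum_comp Equiv.Perm.decomposeFin.symm, Fintype.sum_prod_type]
  refine Finset.sum_eq_zero fun q _ => ?_
  have h1 := h W (fun i => x i.succ) (fun j => y (Equiv.swap 0 q j.succ))
  have h2 : ∀ τ : Equiv.Perm (Fin n), ∏ i, vm C p (x i)
      (y (Equiv.Perm.decomposeFin.symm (q, τ) i)) = vm C p (x 0) (y q) *
        ∏ i : Fin n, vm C p (x i.succ) (y (Equiv.swap 0 q (τ i).succ)) := by
    intro τ
    rw [Fin.prod_univ_succ, Equiv.Perm.decomposeFin_symm_apply_zero]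
    congr 1
    refine Finset.prod_congr rfl fun i _ => ?_
    rw [Equiv.Perm.decomposeFin_symm_apply_succ]
  rw [Finset.sum_congr rfl fun τ _ => h2 τ, ← Finset.mul_sum, h1, mul_zero]

/-- Two values at a common variable point, glued by a third one. -/
lemma glue_aux (p q r : C.A (X.prod X)) (a b : W ⟶ X) :
    C.push (fst W (X.prod X)) (vl C p (snd W (X.prod X) ≫ fst X X) (fst W (X.prod X) ≫ a) *
      vl C q (snd W (X.prod X) ≫ snd X X) (fst W (X.prod X) ≫ b) *
      vl C r (snd W (X.prod X) ≫ fst X X) (snd W (X.prod X) ≫ snd X X)) =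
    vl C (C.comp (tp C p) (C.comp r q)) a b := by
  have e1 : fst W (X.prod X) = aJ W X X ≫ fst (W.prod X) X ≫ fst W X := by
    simp [aJ]
  have e2 : aI W X X ≫ snd W (X.prod X) ≫ fst X X = fst (W.prod X) X ≫ snd W X := by
    simp [aI]
  have e3 : aI W X X ≫ snd W (X.prod X) ≫ snd X X = snd (W.prod X) X := by
    simp [aI]
  have e4 : aI W X X ≫ fst W (X.prod X) = fst (W.prod X) X ≫ fst W X := by
    simp [aI]
  have e5 : ∀ c : W ⟶ X, aI W X X ≫ fst W (X.prod X) ≫ c =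
      fst (W.prod X) X ≫ fst W X ≫ c := by
    intro c
    rw [← Category.assoc, e4, Category.assoc]
  have h1 : ∀ h : C.A (W.prod (X.prod X)), C.push (fst W (X.prod X)) h =
      C.push (fst W X) (C.push (fst (W.prod X) X) (C.pull (aI W X X) h)) := by
    intro h
    rw [pull_iso C (aI W X X) (aJ W X X) aI_aJ aJ_aI, ← C.push_comp, ← C.push_comp, ← e1]
  rw [h1, map_mul (C.pull (aI W X X)), map_mul (C.pull (aI W X X)), pull_vl, pull_vl, pull_vl, e2,
    e3, e5, e5]
  have h2 : vl C p (fst (W.prod X) X ≫ snd W X) (fst (W.prod X) X ≫ fst W X ≫ a) *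
      vl C q (snd (W.prod X) X) (fst (W.prod X) X ≫ fst W X ≫ b) *
      vl C r (fst (W.prod X) X ≫ snd W X) (snd (W.prod X) X) =
      C.pull (fst (W.prod X) X) (vl C p (snd W X) (fst W X ≫ a)) *
      (vl C r (fst (W.prod X) X ≫ snd W X) (snd (W.prod X) X) *
        vl C q (snd (W.prod X) X) (fst (W.prod X) X ≫ fst W X ≫ b)) := by
    rw [pull_vl]
    ring
  rw [h2, C.proj_left, ← vl_comp, vl_comp (tp C p) (C.comp r q) a b, vl_tp]

lemma glue [Fintype D] {p : D → D → C.A (X.prod X)}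
    (hp : ∀ i j, ∑ k, C.comp (p i k) (p k j) = p i j) (hs : ∀ i j, tp C (p i j) = p j i)
    (a b : D × (W ⟶ X)) :
    ∑ c : D × D, C.push (fst W (X.prod X))
      (vl C (p c.1 a.1) (snd W (X.prod X) ≫ fst X X) (fst W (X.prod X) ≫ a.2) *
      vl C (p c.2 b.1) (snd W (X.prod X) ≫ snd X X) (fst W (X.prod X) ≫ b.2) *
      vl C (p c.1 c.2) (snd W (X.prod X) ≫ fst X X) (snd W (X.prod X) ≫ snd X X)) =
      vm C p a b := by
  rw [Finset.sum_congr rfl fun c _ => glue_aux (p c.1 a.1) (p c.2 b.1) (p c.1 c.2) a.2 b.2,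
    Fintype.sum_prod_type]
  simp only [hs]
  have h1 : ∀ x : D, ∑ y : D, vl C (C.comp (p a.1 x) (C.comp (p x y) (p y b.1))) a.2 b.2 =
      vl C (C.comp (p a.1 x) (p x b.1)) a.2 b.2 := by
    intro x
    rw [← vl_sum, ← comp_sum, hp]
  rw [Finset.sum_congr rfl fun x _ => h1 x, ← vl_sum, hp]
  rfl

/-- The sum over all perfect matchings is zero. -/
theorem haf [Fintype D] {m : ℕ} {p : D → D → C.A (X.prod X)}
    (hp : ∀ i j, ∑ k, C.comp (p i k) (p k j) = p i j) (hs : ∀ i j, tp C (p i j) = p j i)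
    (h : PermZero C p (Fin m ⊕ Fin m)) (y : Fin m ⊕ Fin m → D × (W ⟶ X)) :
    ∑ σ : Equiv.Perm (Fin m ⊕ Fin m), ∏ j : Fin m,
      vm C p (y (σ (Sum.inl j))) (y (σ (Sum.inr j))) = 0 := by
  obtain ⟨P, f, t, hP⟩ := exists_fub C W (X.prod X) m
  let x : (Fin m → D × D) → Fin m ⊕ Fin m → D × (P ⟶ X) := fun c =>
    Sum.elim (fun j => ((c j).1, t j ≫ fst X X)) (fun j => ((c j).2, t j ≫ snd X X))
  have h2 : ∑ c : Fin m → D × D, C.push f ((∑ σ : Equiv.Perm (Fin m ⊕ Fin m),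
      ∏ i, vm C p (x c i) (pc f (y (σ i)))) *
      ∏ j : Fin m, vm C p (x c (Sum.inl j)) (x c (Sum.inr j))) = 0 := by
    refine Finset.sum_eq_zero fun c _ => ?_
    rw [h P (x c) (fun i => pc f (y i)), zero_mul, map_zero]
  simp only [Finset.sum_mul, map_sum] at h2
  rw [Finset.sum_comm] at h2
  refine Eq.trans (Finset.sum_congr rfl fun σ _ => ?_) h2
  rw [Finset.prod_congr rfl fun j _ => (glue hp hs (y (σ (Sum.inl j))) (y (σ (Sum.inr j)))).symm,
    prod_sum_fun]
  refine Finset.sum_congr rfl fun c _ => ?_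
  rw [← hP]
  congr 1
  rw [Fintype.prod_sum_type, ← Finset.prod_mul_distrib, ← Finset.prod_mul_distrib]
  refine Finset.prod_congr rfl fun j _ => ?_
  have e1 : Obj.lift f (t j) ≫ snd W (X.prod X) ≫ fst X X = (x c (Sum.inl j)).2 := by
    rw [← Category.assoc, lift_snd]
    rfl
  have e2 : Obj.lift f (t j) ≫ snd W (X.prod X) ≫ snd X X = (x c (Sum.inr j)).2 := by
    rw [← Category.assoc, lift_snd]
    rfl
  have e3 : ∀ c : W ⟶ X, Obj.lift f (t j) ≫ fst W (X.prod X) ≫ c = f ≫ c := by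
    intro c
    rw [← Category.assoc, lift_fst]
  conv_lhs => rw [vl, map_mul, map_mul, pull_vl, pull_vl, pull_vl, e1, e2, e3, e3]
  rfl

end Pool.Agent.U840.VF
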