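import Pool.Agent.U840.VF.Rep

/-!
# The alternating sums of products of zero-cycles
-/

set_option autoImplicit false

open CategoryTheory AlgebraicGeometry

universe u v w

namespace Pool.Agent.U840.VF

open Pool.Agent.H914 Pool.Agent.H914.VarClass Pool.Agent.H914.VarClass.Obj Pool.Agent.W492.BB
  Pool.Agent.W550.Corr Pool.Agent.TH133

variable {k : Type u} [Field k] {𝒱 : VarClass k} {F : Type} [Field F] [CharZero F]

variable {C : TheoryData.{u, v, 0} 𝒱 F} [hC : IsChowF C] {X Y Z W V T S : 𝒱.Obj}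

include hC

/-- The classes on the product of two curves, and their decomposition. -/
theorem exists_types {A G : Type} [Group A] [Fintype A] [Group G] [Fintype G] {φ : G →* A}
    {L : Type} [Fintype L] {D : L → Type} [∀ l, Fintype (D l)] [∀ l, DecidableEq (D l)]
    {ρ : ∀ l, A → Matrix (D l) (D l) F} (hρ : IsOrthogonalSystem ρ)
    {a : A → (X ⟶ X)} {b : G → (Y ⟶ Y)} {γ γ' : L → ℕ}
    (hX : IsCurveWithRanks C ρ X a γ) (hY : IsCurveWithRanks C (fun l g => ρ l (φ g)) Y b γ')
    (hSd : S.dim = 2) {c : C.A ((X.prod Y).prod S)} (hc : C.Deg 2 c)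
    (hci : ∀ g, C.up (prodMap (prodMap (a (φ g)) (b g)) (𝟙 S)) c = c) :
    ∃ (p : ∀ l, D l → D l → C.A (X.prod X)) (q : ∀ l, D l → D l → C.A (Y.prod Y)),
      (∀ l, OddSym (p l) (γ l)) ∧ (∀ l, OddSym (q l) (γ' l)) ∧
      ∀ α : C.A S, InAlbKer C α → ∃ β : ∀ l, D l → D l → C.A (X.prod Y),
        (∀ l d e, β l d e ∈ C.gr (X.prod Y) ((X.dim : ℤ) + Y.dim)) ∧
        (∀ l d e, ∑ k, C.comp (p l d k) (β l k e) = β l d e) ∧
        (∀ l d e, ∑ k, C.comp (β l d k) (q l k e) = β l d e) ∧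
        C.act (tp C c) α = ∑ l, ∑ d, (Fintype.card (D l) : F) • β l d d := by
  classical
  obtain ⟨hd, h0, h1, e, he, he1, hinv, hk⟩ := hX
  obtain ⟨hd', h0', h1', e', he', he1', hinv', hk'⟩ := hY
  have hdXY : (X.prod Y).dim = 2 := by rw [dim_prod, hd, hd']
  have hp : ∀ l, OddSym (repProj C (ρ l) a e) (γ l) := fun l =>
    ⟨rep_idem hd he he1 h0 h1 hinv (hρ.map_mul l), rep_symm h0 h1 hinv (hρ.orthogonal l),
      fun i j => rep_mem hd he i j, by omega,
      permZero_double fun W x y => by rw [← symPower_eq']; exact hk l W x y⟩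
  have hq : ∀ l, OddSym (repProj C (fun g => ρ l (φ g)) b e') (γ' l) := fun l =>
    ⟨rep_idem hd' he' he1' h0' h1' hinv' (fun g h => by rw [map_mul, hρ.map_mul]),
      rep_symm h0' h1' hinv' (fun g => by rw [map_inv, hρ.orthogonal]),
      fun i j => rep_mem hd' he' i j, by omega,
      permZero_double fun W x y => by rw [← symPower_eq']; exact hk' l W x y⟩
  refine ⟨fun l => repProj C (ρ l) a e, fun l => repProj C (fun g => ρ l (φ g)) b e', hp, hq,
    fun α hα => ?_⟩
  -- the classes on the product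
  let β : C.A (X.prod Y) := C.act (tp C c) α
  have hβK : InAlbKer C β := by
    refine albKer_act ?_ (by rw [hSd, hdXY]) hα
    rw [hSd]
    exact tp_mem C hc
  have hβd : C.Deg 2 β := by
    have := hβK.deg
    rw [hdXY] at this
    exact this
  have hsnd : C.push (snd X Y) β = 0 := by
    rw [← C.act_graph]
    refine hβK.act_eq_zero Y _ ?_
    have := graph_deg (C := C) (snd X Y)
    rwa [hd'] at this
  have hfst : C.push (fst X Y) β = 0 := by
    rw [← C.act_graph]
    refine hβK.act_eq_zero X _ ?_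
    have := graph_deg (C := C) (fst X Y)
    rwa [hd] at this
  have hfix : C.comp (midProj C e) β = β := mid_fix hd hd' he hβd hsnd
  have hfix' : C.comp β (midProj C e') = β := by
    have h2 : C.push (snd Y X) (tp C β) = 0 := by
      rw [tp, pull_iso C (sw Y X) (sw X Y) sw_sw sw_sw, ← C.push_comp]
      have : sw X Y ≫ snd Y X = fst X Y := by simp [sw]
      rw [this, hfst]
    have h3 := mid_fix hd' hd he' (tp_mem C hβd) h2
    have h4 := congrArg (tp C) h3
    rwa [tp_comp C (ch_comm C), tp_tp, mid_symm] at h4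
  have hβi : ∀ g, C.pull (prodMap (a (φ g)) (b g)) β = β := fun g => act_tp_inv (hci g) α
  have hβg : β ∈ C.gr (X.prod Y) ((X.dim : ℤ) + Y.dim) := by
    have := hβd
    have e2 : (X.dim : ℤ) + Y.dim = 2 := by rw [hd, hd']; norm_num
    rw [e2]
    exact this
  refine ⟨fun l d d' => C.comp (repProj C (ρ l) a e d d') β, fun l d d' => ?_, fun l d d' => ?_,
    fun l d d' => ?_, ?_⟩
  · have h4 := comp_mem C (e := 0) (e' := Y.dim) (Γ := repProj C (ρ l) a e d d') (Δ := β)
      (by rw [add_zero]; exact (hp l).deg d d') hβg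
    rwa [zero_add] at h4
  · have h5 : ∀ k, C.comp (repProj C (ρ l) a e d k) (C.comp (repProj C (ρ l) a e k d') β) =
        C.comp (C.comp (repProj C (ρ l) a e d k) (repProj C (ρ l) a e k d')) β := fun k =>
      (comp_assoc C _ _ _).symm
    rw [Finset.sum_congr rfl fun k _ => h5 k, ← sum_comp, (hp l).idem]
  · exact rep_cross hd he he1 h0 h1 hinv (hρ.map_mul l) hfix hfix' hβi d d'
  · have h6 : β = C.comp (∑ l, ∑ d, (Fintype.card (D l) : F) • repProj C (ρ l) a e d d) β := by
      rw [rep_sum hρ h0, hfix]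
    refine h6.trans ?_
    rw [sum_comp]
    refine Finset.sum_congr rfl fun l _ => ?_
    rw [sum_comp]
    refine Finset.sum_congr rfl fun d _ => ?_
    rw [smul_comp1]

/-- **The main theorem.** -/
theorem main {I : Type} [Fintype I] {A G : I → Type} [∀ i, Group (A i)] [∀ i, Fintype (A i)]
    [∀ i, Group (G i)] [∀ i, Fintype (G i)] {φ : ∀ i, G i →* A i}
    {L : I → Type} [∀ i, Fintype (L i)] {D : ∀ i, L i → Type} [∀ i l, Fintype (D i l)]
    [∀ i l, DecidableEq (D i l)] {ρ : ∀ i l, A i → Matrix (D i l) (D i l) F}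
    (hρ : ∀ i, IsOrthogonalSystem (ρ i))
    {X Y : I → 𝒱.Obj} {a : ∀ i, A i → (X i ⟶ X i)} {b : ∀ i, G i → (Y i ⟶ Y i)}
    {γ γ' : ∀ i, L i → ℕ} (hX : ∀ i, IsCurveWithRanks C (ρ i) (X i) (a i) (γ i))
    (hY : ∀ i, IsCurveWithRanks C (fun l g => ρ i l (φ i g)) (Y i) (b i) (γ' i))
    (hS : IsDominatedByQuotients C (fun i g => a i (φ i g)) b S)
    {N : ℕ} (hN : ∑ i, ∑ l, γ i l * γ' i l < N)
    (α : Fin N → C.A S) (hα : ∀ i, InAlbKer C (α i)) (s : Fin N → (W ⟶ S)) :
    (Matrix.of fun i j => C.pull (s i) (α j)).det = 0 := by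
  classical
  obtain ⟨hSd, c, r, hc, hci, hdom⟩ := hS
  choose p q hp hq hdec using fun i => exists_types (C := C) (hρ i) (hX i) (hY i) hSd (hc i)
    (hci i)
  choose β hβg hβ hβ' hβs using fun i (j : Fin N) => hdec i (α j) (hα j)
  refine det_motives (C := C) (S := S) (Φ := Σ i, L i) (X := fun φ => X φ.1) (Y := fun φ => Y φ.1)
    (D := fun φ => D φ.1 φ.2) (E := fun φ => D φ.1 φ.2)
    (γ := fun φ => γ φ.1 φ.2) (γ' := fun φ => γ' φ.1 φ.2) (by
      rw [Fintype.sum_sigma]
      exact hN)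
    (fun φ => hp φ.1 φ.2) (fun φ => hq φ.1 φ.2)
    (fun φ d => if d.1 = d.2 then (r φ.1 * (Fintype.card (D φ.1 φ.2) : F)) • c φ.1 else 0)
    α (fun φ j => β φ.1 j φ.2)
    (fun φ j => hβg φ.1 j φ.2) (fun φ j => hβ φ.1 j φ.2) (fun φ j => hβ' φ.1 j φ.2)
    (fun j => ?_) s
  rw [← hdom _ (hα j), Fintype.sum_sigma]
  refine Finset.sum_congr rfl fun i _ => ?_
  rw [hβs i j, act_map_sum, Finset.smul_sum]
  refine Finset.sum_congr rfl fun l _ => ?_
  rw [act_map_sum, Finset.smul_sum, Fintype.sum_prod_type]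
  refine Finset.sum_congr rfl fun d _ => ?_
  rw [Finset.sum_eq_single d]
  · simp only [if_true]
    rw [← actB_apply C ((r i * _) • c i), map_smul, LinearMap.smul_apply, actB_apply, mul_smul]
    congr 1
    rw [← actB_apply C (c i), ← actB_apply C (c i), map_smul]
  · intro d' _ hd'
    simp only [if_neg hd'.symm]
    rw [← actB_apply C (0 : C.A (((X i).prod (Y i)).prod S)), map_zero, LinearMap.zero_apply]
  · intro h
    exact absurd (Finset.mem_univ d) h

end Pool.Agent.U840.VF
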