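import Pool.Agent.U840.VF.Act

/-!
# The motives attached to orthogonal representations of a group acting on a curve
-/

set_option autoImplicit false

open CategoryTheory AlgebraicGeometry

universe u v w

namespace Pool.Agent.U840.VF

open Pool.Agent.H914 Pool.Agent.H914.VarClass Pool.Agent.H914.VarClass.Obj Pool.Agent.W492.BB
  Pool.Agent.W550.Corr Pool.Agent.TH133

variable {k : Type u} [Field k] {𝒱 : VarClass k} {F : Type} [Field F]

variable {C : TheoryData.{u, v, 0} 𝒱 F} [hC : IsChowF C] {X Y Z W V T S : 𝒱.Obj}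

include hC

section one

variable {G : Type} [Group G] [Fintype G] {a : G → (X ⟶ X)} {e : C.A X} {D : Type} [Fintype D]
  [DecidableEq D] {ρ : G → Matrix D D F}

omit [Group G] [Fintype D] [DecidableEq D] in
lemma repProj_eq (i j : D) :
    repProj C ρ a e i j = ∑ g : G, ((Fintype.card G : F)⁻¹ * ρ g i j) • gP a e g := rfl

omit [DecidableEq D] in
/-- The action of an element of the group. -/
lemma rep_right (hd : X.dim = 1) (hed : C.Deg 1 e) (he1 : HasDegreeOne C e) (h0 : a 1 = 𝟙 X)
    (h1 : ∀ g h, a (g * h) = a h ≫ a g) (he : ∀ g, C.pull (a g) e = e)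
    (hmul : ∀ g h, ρ (g * h) = ρ g * ρ h) (h : G) (i l : D) :
    ∑ k, ρ h k l • C.comp (repProj C ρ a e i k) (gP a e h) = repProj C ρ a e i l := by
  have h2 : ∀ k, ρ h k l • C.comp (repProj C ρ a e i k) (gP a e h) =
      ∑ g : G, ((Fintype.card G : F)⁻¹ * (ρ g i k * ρ h k l)) • gP a e (g * h) := by
    intro k
    rw [repProj_eq, sum_comp, Finset.smul_sum]
    refine Finset.sum_congr rfl fun g _ => ?_
    rw [smul_comp1, gP_comp hd hed he1 h0 h1 he, smul_smul]
    congr 1
    ring
  rw [Finset.sum_congr rfl fun k _ => h2 k, Finset.sum_comm, repProj_eq]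
  refine Eq.trans (Finset.sum_congr rfl fun g _ => ?_) (Equiv.sum_comp (Equiv.mulRight h)
    fun g => ((Fintype.card G : F)⁻¹ * ρ g i l) • gP a e g)
  rw [← Finset.sum_smul, ← Finset.mul_sum, Equiv.coe_mulRight, hmul, Matrix.mul_apply]

omit [DecidableEq D] in
lemma rep_idem [CharZero F] (hd : X.dim = 1) (hed : C.Deg 1 e) (he1 : HasDegreeOne C e)
    (h0 : a 1 = 𝟙 X) (h1 : ∀ g h, a (g * h) = a h ≫ a g) (he : ∀ g, C.pull (a g) e = e)
    (hmul : ∀ g h, ρ (g * h) = ρ g * ρ h) (i j : D) :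
    ∑ k, C.comp (repProj C ρ a e i k) (repProj C ρ a e k j) = repProj C ρ a e i j := by
  have hn : (Fintype.card G : F) ≠ 0 := Nat.cast_ne_zero.2 Fintype.card_ne_zero
  have h2 : ∀ k, C.comp (repProj C ρ a e i k) (repProj C ρ a e k j) =
      ∑ h : G, (Fintype.card G : F)⁻¹ • ρ h k j • C.comp (repProj C ρ a e i k) (gP a e h) := by
    intro k
    conv_lhs => rw [repProj_eq k j, comp_sum]
    refine Finset.sum_congr rfl fun h _ => ?_
    rw [comp_smul1, smul_smul]
  rw [Finset.sum_congr rfl fun k _ => h2 k, Finset.sum_comm]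
  have h3 : ∀ h : G, ∑ k, (Fintype.card G : F)⁻¹ • ρ h k j •
      C.comp (repProj C ρ a e i k) (gP a e h) = (Fintype.card G : F)⁻¹ • repProj C ρ a e i j := by
    intro h
    rw [← Finset.smul_sum, rep_right hd hed he1 h0 h1 he hmul]
  rw [Finset.sum_congr rfl fun h _ => h3 h, Finset.sum_const, Finset.card_univ,
    ← Nat.cast_smul_eq_nsmul F, smul_smul, mul_inv_cancel₀ hn, one_smul]

omit [Fintype D] [DecidableEq D] in
lemma rep_symm (h0 : a 1 = 𝟙 X) (h1 : ∀ g h, a (g * h) = a h ≫ a g)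
    (he : ∀ g, C.pull (a g) e = e) (horth : ∀ g, ρ g⁻¹ = (ρ g).transpose) (i j : D) :
    tp C (repProj C ρ a e i j) = repProj C ρ a e j i := by
  rw [repProj_eq, repProj_eq, tp, map_sum]
  refine Eq.trans (Finset.sum_congr rfl fun g _ => ?_) (Equiv.sum_comp (Equiv.inv G)
    fun g => ((Fintype.card G : F)⁻¹ * ρ g j i) • gP a e g)
  rw [map_smul, Equiv.inv_apply, horth, Matrix.transpose_apply, ← gP_symm h0 h1 he g]
  rfl

omit [Group G] [Fintype D] [DecidableEq D] in
lemma rep_mem (hd : X.dim = 1) (hed : C.Deg 1 e) (i j : D) :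
    repProj C ρ a e i j ∈ C.gr (X.prod X) X.dim :=
  Submodule.sum_mem _ fun _ _ => Submodule.smul_mem _ _ (C.pull_mem _ (mid_mem hd hed))

end one

section system

variable {G : Type} [Group G] [Fintype G] {a : G → (X ⟶ X)} {e : C.A X} {L : Type} [Fintype L]
  {D : L → Type} [∀ l, Fintype (D l)] [∀ l, DecidableEq (D l)] {ρ : ∀ l, G → Matrix (D l) (D l) F}

lemma rep_sum [CharZero F] (hρ : IsOrthogonalSystem ρ) (h0 : a 1 = 𝟙 X) :
    ∑ l, ∑ d, (Fintype.card (D l) : F) • repProj C (ρ l) a e d d = midProj C e := by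
  classical
  have hn : (Fintype.card G : F) ≠ 0 := Nat.cast_ne_zero.2 Fintype.card_ne_zero
  have h1 : ∀ l, ∑ d, (Fintype.card (D l) : F) • repProj C (ρ l) a e d d =
      ∑ g : G, ((Fintype.card G : F)⁻¹ * ((Fintype.card (D l) : F) * (ρ l g).trace)) •
        gP a e g := by
    intro l
    have h2 : ∀ d, (Fintype.card (D l) : F) • repProj C (ρ l) a e d d =
        ∑ g : G, ((Fintype.card G : F)⁻¹ * ((Fintype.card (D l) : F) * ρ l g d d)) • gP a e g := by
      intro d
      rw [repProj_eq, Finset.smul_sum]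
      refine Finset.sum_congr rfl fun g _ => ?_
      rw [smul_smul]
      congr 1
      ring
    rw [Finset.sum_congr rfl fun d _ => h2 d, Finset.sum_comm]
    refine Finset.sum_congr rfl fun g _ => ?_
    rw [← Finset.sum_smul, ← Finset.mul_sum, ← Finset.mul_sum]
    rfl
  rw [Finset.sum_congr rfl fun l _ => h1 l, Finset.sum_comm]
  have h3 : ∀ g : G, ∑ l, ((Fintype.card G : F)⁻¹ * ((Fintype.card (D l) : F) *
      (ρ l g).trace)) • gP a e g = if g = 1 then gP a e g else 0 := by
    intro g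
    rw [← Finset.sum_smul, ← Finset.mul_sum]
    split_ifs with hg
    · rw [hg, hρ.regular_one, inv_mul_cancel₀ hn, one_smul]
    · rw [hρ.regular_ne g hg, mul_zero, zero_smul]
  rw [Finset.sum_congr rfl fun g _ => h3 g, Finset.sum_ite_eq' Finset.univ (1 : G),
    if_pos (Finset.mem_univ _), gP_one h0]

end system

section cross

variable {A G : Type} [Group A] [Fintype A] [Group G] [Fintype G] {φ : G →* A}
  {a : A → (X ⟶ X)} {e : C.A X} {b : G → (Y ⟶ Y)} {e' : C.A Y} {D : Type} [Fintype D]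
  [DecidableEq D] {ρ : A → Matrix D D F}

omit [DecidableEq D] in
/-- The classes on the product with a curve with an action of `G`. -/
lemma rep_cross [CharZero F] (hd : X.dim = 1) (hed : C.Deg 1 e) (he1 : HasDegreeOne C e)
    (h0 : a 1 = 𝟙 X) (h1 : ∀ g h, a (g * h) = a h ≫ a g) (he : ∀ g, C.pull (a g) e = e)
    (hmul : ∀ g h, ρ (g * h) = ρ g * ρ h)
    {β : C.A (X.prod Y)} (hfix : C.comp (midProj C e) β = β)
    (hfix' : C.comp β (midProj C e') = β)
    (hinv : ∀ g, C.pull (prodMap (a (φ g)) (b g)) β = β) (i l : D) :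
    ∑ k, C.comp (C.comp (repProj C ρ a e i k) β) (repProj C (fun g => ρ (φ g)) b e' k l) =
      C.comp (repProj C ρ a e i l) β := by
  have hn : (Fintype.card G : F) ≠ 0 := Nat.cast_ne_zero.2 Fintype.card_ne_zero
  have hb : ∀ g : G, C.comp β (gP b e' g) = C.comp (gP a e (φ g)) β := by
    intro g
    have h2 := gP_both (C := C) (a := fun g => a (φ g)) (a' := b) (e := e) (e' := e')
      (by rw [map_one, h0]) (fun g h => by rw [map_mul, h1]) (fun g => he _) hfix hfix' hinv g
    exact h2.symm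
  have h2 : ∀ k, C.comp (C.comp (repProj C ρ a e i k) β)
      (repProj C (fun g => ρ (φ g)) b e' k l) = ∑ g : G, (Fintype.card G : F)⁻¹ •
        ρ (φ g) k l • C.comp (C.comp (repProj C ρ a e i k) (gP a e (φ g))) β := by
    intro k
    rw [repProj_eq (a := b) k l, comp_sum]
    refine Finset.sum_congr rfl fun g _ => ?_
    rw [comp_smul1, smul_smul, comp_assoc, hb, ← comp_assoc]
  rw [Finset.sum_congr rfl fun k _ => h2 k, Finset.sum_comm]
  have h3 : ∀ g : G, ∑ k, (Fintype.card G : F)⁻¹ • ρ (φ g) k l •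
      C.comp (C.comp (repProj C ρ a e i k) (gP a e (φ g))) β =
      (Fintype.card G : F)⁻¹ • C.comp (repProj C ρ a e i l) β := by
    intro g
    rw [← Finset.smul_sum, ← rep_right hd hed he1 h0 h1 he hmul (φ g) i l, sum_comp]
    congr 1
    refine Finset.sum_congr rfl fun k _ => ?_
    rw [smul_comp1]
  rw [Finset.sum_congr rfl fun g _ => h3 g, Finset.sum_const, Finset.card_univ,
    ← Nat.cast_smul_eq_nsmul F, smul_smul, mul_inv_cancel₀ hn, one_smul]

end cross

end Pool.Agent.U840.VF
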