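import Pool.Agent.U840.VF.Det

/-!
# Determinants of zero-cycles on dominated varieties
-/

open CategoryTheory AlgebraicGeometry

universe u v w

namespace Pool.Agent.U840.VF

open Pool.Agent.H914 Pool.Agent.H914.VarClass Pool.Agent.H914.VarClass.Obj Pool.Agent.W492.BB
  Pool.Agent.W550.Corr Pool.Agent.TH133

variable {k : Type u} [Field k] {𝒱 : VarClass k} {F : Type} [Field F] [CharZero F]

variable {C : TheoryData.{u, v, 0} 𝒱 F} [hC : IsChowF C] {X Y Z W V T S : 𝒱.Obj}

include hC

/-- The vanishing of determinants is preserved by correspondences. -/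
theorem det_trans {K : Type} [Fintype K] {n : ℕ} (b : K → C.A (T.prod S)) (β : Fin n → K → C.A T)
    (h : ∀ (W : 𝒱.Obj) (t : Fin n → K × (W ⟶ T)),
      (Matrix.of fun i j => C.pull (t i).2 (β j (t i).1)).det = 0) (s : Fin n → (W ⟶ S)) :
    (Matrix.of fun i j => C.pull (s i) (∑ k, C.act (b k) (β j k))).det = 0 := by
  obtain ⟨P, f, t, hP⟩ := exists_fub (C := C) W T n
  rw [← Matrix.det_transpose, Matrix.det_apply']
  have h1 : ∀ σ : Equiv.Perm (Fin n), ∏ i, (Matrix.of fun i j =>
      C.pull (s i) (∑ k, C.act (b k) (β j k))).transpose (σ i) i =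
      ∑ c : Fin n → K,
        C.push f ((∏ i, vl C (b (c i)) (t i) (f ≫ s i)) * ∏ i, C.pull (t i) (β (σ i) (c i))) := by
    intro σ
    have h2 : ∀ (c : Fin n → K) (i : Fin n),
        vl C (b (c i)) (t i) (f ≫ s i) * C.pull (t i) (β (σ i) (c i)) =
        vl C (vl C (b (c i)) (snd W T) (fst W T ≫ s i) * C.pull (snd W T) (β (σ i) (c i))) f
          (t i) := by
      intro c i
      conv_rhs => rw [vl, map_mul, pull_vl, lift_snd, ← Category.assoc, lift_fst, ← C.pull_comp,
        lift_snd]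
    have h3 : ∀ c : Fin n → K,
        C.push f ((∏ i, vl C (b (c i)) (t i) (f ≫ s i)) * ∏ i, C.pull (t i) (β (σ i) (c i))) =
        ∏ i, C.pull (s i) (C.act (b (c i)) (β (σ i) (c i))) := by
      intro c
      rw [← Finset.prod_mul_distrib, Finset.prod_congr rfl fun i _ => h2 c i, hP]
      exact Finset.prod_congr rfl fun i _ => (pull_act _ _ _).symm
    rw [Finset.sum_congr rfl fun c _ => h3 c,
      ← prod_sum_fun fun i k => C.pull (s i) (C.act (b k) (β (σ i) k))]
    refine Finset.prod_congr rfl fun i _ => ?_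
    rw [← map_sum]
    rfl
  have h3 : ∀ σ : Equiv.Perm (Fin n), ((Equiv.Perm.sign σ : ℤ) : C.A W) *
      ∏ i, (Matrix.of fun i j => C.pull (s i) (∑ k, C.act (b k) (β j k))).transpose (σ i) i =
      ∑ c : Fin n → K,
      C.push f ((∏ i, vl C (b (c i)) (t i) (f ≫ s i)) * (((Equiv.Perm.sign σ : ℤ) : C.A P) *
        ∏ i, C.pull (t i) (β (σ i) (c i)))) := by
    intro σ
    rw [h1]
    rcases Int.units_eq_one_or (Equiv.Perm.sign σ) with h4 | h4 <;> rw [h4] <;> simp
  rw [Finset.sum_congr rfl fun σ _ => h3 σ, Finset.sum_comm]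
  refine Finset.sum_eq_zero fun c _ => ?_
  rw [← map_sum, ← Finset.mul_sum]
  have h5 := h P (fun i => (c i, t i))
  rw [← Matrix.det_transpose, Matrix.det_apply'] at h5
  have h6 : ∑ σ : Equiv.Perm (Fin n), ((Equiv.Perm.sign σ : ℤ) : C.A P) *
      ∏ i, C.pull (t i) (β (σ i) (c i)) = 0 := h5
  rw [h6, mul_zero, map_zero]

end Pool.Agent.U840.VF
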